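import Mathlib

/-! Subextensions with `{2,3}`-Galois group: the fixed field of the elements of order prime to `6` is
closed under roots of polynomials of degree at most `4`. -/

set_option autoImplicit false

namespace Pool.Agent.H37.OP

open Polynomial

/-- Splitting off the part prime to `6`. -/
lemma exists_split6 (n : ℕ) (hn : 0 < n) :
    ∃ a b : ℕ, n = a * b ∧ Nat.Coprime b 6 ∧ ∀ p : ℕ, p.Prime → p ∣ a → p = 2 ∨ p = 3 := by
  induction n using Nat.strong_induction_on with
  | _ n ih =>
    by_cases h2 : 2 ∣ n
    · obtain ⟨m, rfl⟩ := h2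
      obtain ⟨a, b, hab, hb, ha⟩ := ih m (by omega) (by omega)
      refine ⟨2 * a, b, by rw [hab]; ring, hb, fun p hp hpa => ?_⟩
      rcases (Nat.Prime.dvd_mul hp).1 hpa with h | h
      · left; exact (Nat.prime_dvd_prime_iff_eq hp Nat.prime_two).1 h
      · exact ha p hp h
    · by_cases h3 : 3 ∣ n
      · obtain ⟨m, rfl⟩ := h3
        obtain ⟨a, b, hab, hb, ha⟩ := ih m (by omega) (by omega)
        refine ⟨3 * a, b, by rw [hab]; ring, hb, fun p hp hpa => ?_⟩
        rcases (Nat.Prime.dvd_mul hp).1 hpa with h | h
        · right; exact (Nat.prime_dvd_prime_iff_eq hp Nat.prime_three).1 h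
        · exact ha p hp h
      · refine ⟨1, n, by ring, ?_, fun p hp hpa => ?_⟩
        · have h6 : (6 : ℕ) = 2 * 3 := by norm_num
          rw [h6]
          refine Nat.Coprime.mul_right ?_ ?_
          · exact ((Nat.Prime.coprime_iff_not_dvd Nat.prime_two).2 h2).symm
          · exact ((Nat.Prime.coprime_iff_not_dvd Nat.prime_three).2 h3).symm
        · exact absurd (Nat.dvd_one.1 hpa) hp.one_lt.ne'

/-- The normal subgroup generated by the elements of order prime to `6`. -/
def core6 (G : Type*) [Group G] : Subgroup G :=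
  Subgroup.normalClosure {g : G | (orderOf g).Coprime 6}

instance core6_normal (G : Type*) [Group G] : (core6 G).Normal :=
  Subgroup.normalClosure_normal

lemma mem_core6 {G : Type*} [Group G] (g : G) (hg : (orderOf g).Coprime 6) : g ∈ core6 G :=
  Subgroup.subset_normalClosure hg

lemma core6_induction {G : Type*} [Group G] (P : Subgroup G)
    (h : ∀ g : G, (orderOf g).Coprime 6 → g ∈ P) : core6 G ≤ P := by
  rw [core6, Subgroup.normalClosure, Subgroup.closure_le]
  intro x hx
  rw [Group.mem_conjugatesOfSet_iff] at hx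
  obtain ⟨g, hg, hgx⟩ := hx
  apply h
  obtain ⟨c, hc⟩ := isConj_iff.1 hgx
  rw [← hc]
  have : orderOf (c * g * c⁻¹) = orderOf g := by
    have := orderOf_injective (MulAut.conj c).toMonoidHom (MulAut.conj c).injective g
    simpa using this
  rw [this]
  exact hg

/-- The quotient by `core6` is a `{2,3}`-group. -/
lemma quotient_core6 (G : Type*) [Group G] [Finite G] (p : ℕ) (hp : p.Prime)
    (h : p ∣ Nat.card (G ⧸ core6 G)) : p = 2 ∨ p = 3 := by
  have : Fact p.Prime := ⟨hp⟩
  obtain ⟨q, hq⟩ := exists_prime_orderOf_dvd_card' p h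
  obtain ⟨g, rfl⟩ := QuotientGroup.mk_surjective q
  obtain ⟨a, b, hab, hb, ha⟩ := exists_split6 (orderOf g) (orderOf_pos g)
  apply ha p hp
  rw [← hq]
  apply orderOf_dvd_of_pow_eq_one
  rw [← QuotientGroup.mk_pow, QuotientGroup.eq_one_iff]
  apply mem_core6
  have hdvd : orderOf (g ^ a) ∣ b := by
    apply orderOf_dvd_of_pow_eq_one
    rw [← pow_mul, ← hab, pow_orderOf_eq_one]
  exact Nat.Coprime.coprime_dvd_left hdvd hb

section Field

variable {K N : Type} [Field K] [Field N] [Algebra K N] [FiniteDimensional K N] [IsGalois K N]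

/-- The largest subextension of `N / K` with `{2,3}`-group. -/
noncomputable def F23 (K N : Type) [Field K] [Field N] [Algebra K N] : IntermediateField K N :=
  IntermediateField.fixedField (core6 Gal(N/K))

instance : IsGalois K (F23 K N) := by
  unfold F23
  infer_instance

lemma card_F23 (p : ℕ) (hp : p.Prime) (h : p ∣ Nat.card Gal(F23 K N/K)) : p = 2 ∨ p = 3 := by
  apply quotient_core6 Gal(N/K) p hp
  rwa [Nat.card_congr (IsGalois.normalAutEquivQuotient (core6 Gal(N/K))).toEquiv]

lemma mem_F23 (x : N) (hx : ∀ σ : Gal(N/K), (orderOf σ).Coprime 6 → σ x = x) : x ∈ F23 K N := by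
  rw [F23, IntermediateField.mem_fixedField_iff]
  intro σ hσ
  have : core6 Gal(N/K) ≤ MulAction.stabilizer Gal(N/K) x := by
    apply core6_induction
    intro g hg
    rw [MulAction.mem_stabilizer_iff]
    exact hx g hg
  exact MulAction.mem_stabilizer_iff.1 (this hσ)

lemma fixed_of_mem (x : N) (hx : x ∈ F23 K N) (σ : Gal(N/K)) (hσ : (orderOf σ).Coprime 6) :
    σ x = x := by
  rw [F23, IntermediateField.mem_fixedField_iff] at hx
  exact hx σ (mem_core6 σ hσ)

lemma closed4 (f : Polynomial (F23 K N)) (hf : f ≠ 0) (hdeg : f.natDegree ≤ 4) (x : N)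
    (hx : aeval x f = 0) : x ∈ F23 K N := by
  classical
  apply mem_F23
  intro σ hσ
  set g : Polynomial N := f.map (algebraMap (F23 K N) N) with hg
  have hg0 : g ≠ 0 := by
    rw [hg, Ne, Polynomial.map_eq_zero]
    exact hf
  have hgdeg : g.natDegree ≤ 4 := (Polynomial.natDegree_map_le).trans hdeg
  have hroot : ∀ y : N, g.eval y = 0 → g.eval (σ y) = 0 := by
    intro y hy
    have h1 : g.map (σ : N →+* N) = g := by
      ext n
      rw [Polynomial.coeff_map, hg, Polynomial.coeff_map]
      exact fixed_of_mem _ (f.coeff n).2 σ hσ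
    have h2 : g.eval (σ y) = (g.map (σ : N →+* N)).eval ((σ : N →+* N) y) := by
      rw [h1]; rfl
    rw [h2, Polynomial.eval_map, Polynomial.eval₂_hom, hy, map_zero]
  have hx0 : g.eval x = 0 := by
    rw [hg, Polynomial.eval_map]
    exact hx
  set n := Function.minimalPeriod (fun y : N => σ y) x with hn
  have hiter : ∀ k : ℕ, (fun y : N => σ y)^[k] x = (σ ^ k) x := by
    intro k
    induction k with
    | zero => simp
    | succ k ih =>
      rw [Function.iterate_succ_apply', ih, pow_succ']
      rfl
  have hper : Function.IsPeriodicPt (fun y : N => σ y) (orderOf σ) x := by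
    rw [Function.IsPeriodicPt, Function.IsFixedPt, hiter, pow_orderOf_eq_one]
    rfl
  have hdvd : n ∣ orderOf σ := hper.minimalPeriod_dvd
  have hpos : 0 < n := Function.IsPeriodicPt.minimalPeriod_pos (orderOf_pos σ) hper
  have hroots : ∀ k : ℕ, g.eval ((fun y : N => σ y)^[k] x) = 0 := by
    intro k
    induction k with
    | zero => exact hx0
    | succ k ih => rw [Function.iterate_succ_apply']; exact hroot _ ih
  have hle : n ≤ 4 := by
    have hinj := Function.iterate_injOn_Iio_minimalPeriod (f := fun y : N => σ y) (x := x)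
    have h1 : ((Finset.range n).image (fun k => (fun y : N => σ y)^[k] x)).card = n := by
      rw [Finset.card_image_of_injOn, Finset.card_range]
      intro i hi j hj hij
      exact hinj (by simpa using hi) (by simpa using hj) hij
    have h2 : (Finset.range n).image (fun k => (fun y : N => σ y)^[k] x) ⊆ g.roots.toFinset := by
      intro y hy
      rw [Finset.mem_image] at hy
      obtain ⟨k, _, rfl⟩ := hy
      rw [Multiset.mem_toFinset, Polynomial.mem_roots hg0]
      exact hroots k
    calc n = _ := h1.symm
      _ ≤ g.roots.toFinset.card := Finset.card_le_card h2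
      _ ≤ Multiset.card g.roots := Multiset.toFinset_card_le _
      _ ≤ g.natDegree := Polynomial.card_roots' _
      _ ≤ 4 := hgdeg
  have hcop : n.Coprime 6 := Nat.Coprime.coprime_dvd_left hdvd hσ
  have hn1 : n = 1 := by
    interval_cases n <;> first | rfl | (exact absurd hcop (by decide))
  have := Function.minimalPeriod_eq_one_iff_isFixedPt.1 (hn.symm.trans hn1)
  exact this

end Field

end Pool.Agent.H37.OP
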