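import Mathlib
import Pool.Agent.H46.OP.Defs

/-! OP1 of project ONEPLACE: semistable reduction of elliptic curves over number fields, through the
Legendre form (primes not above `2`) and the Deuring form (primes not above `3`). -/

set_option autoImplicit false

namespace Pool.Agent.H37.OP

open NumberField IsDedekindDomain Pool.Agent.H46.OP

section Local

variable {M : Type} [Field M] [NumberField M] (w : HeightOneSpectrum (𝓞 M))

/-- The local condition at `w`: integral with unit discriminant, or the split node in standard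
form. -/
def LC (V : WeierstrassCurve M) : Prop :=
  (w.valuation M V.a₁ ≤ 1 ∧ w.valuation M V.a₂ ≤ 1 ∧ w.valuation M V.a₃ ≤ 1 ∧
    w.valuation M V.a₄ ≤ 1 ∧ w.valuation M V.a₆ ≤ 1) ∧
  (w.valuation M V.Δ = 1 ∨ (w.valuation M V.a₁ = 1 ∧ w.valuation M V.a₂ < 1 ∧
    w.valuation M V.a₃ < 1 ∧ w.valuation M V.a₄ < 1 ∧ w.valuation M V.a₆ < 1))

lemma exists_den (x : M) (hx : w.valuation M x ≤ 1) :
    ∃ n d : 𝓞 M, d ∉ w.asIdeal ∧ algebraMap (𝓞 M) M d * x = algebraMap (𝓞 M) M n := by
  obtain ⟨n, d, h | h⟩ := HeightOneSpectrum.exists_primeCompl_mul_eq_or_mul_eq (K := M) w x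
  · exact ⟨n, d, d.2, by rw [mul_comm]; exact h⟩
  · refine ⟨d, n, ?_, by rw [mul_comm]; exact h⟩
    rw [← HeightOneSpectrum.valuation_eq_one_iff_notMem (K := M)]
    have hd : w.valuation M (algebraMap (𝓞 M) M d) = 1 :=
      (HeightOneSpectrum.valuation_eq_one_iff_notMem (K := M) w).2 d.2
    have h2 := congrArg (w.valuation M) h
    rw [map_mul, hd] at h2
    have hn : w.valuation M (algebraMap (𝓞 M) M n) ≤ 1 := w.valuation_le_one n
    refine le_antisymm hn ?_
    rw [← h2]
    exact mul_le_of_le_one_left' hx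

lemma goodOrSplit_of_LC (E V : WeierstrassCurve M) (C : WeierstrassCurve.VariableChange M)
    (h : C • V = E) (hV : LC w V) : GoodOrSplit E w := by
  obtain ⟨⟨h1, h2, h3, h4, h6⟩, hΔ⟩ := hV
  obtain ⟨n1, d1, hd1, e1⟩ := exists_den w _ h1
  obtain ⟨n2, d2, hd2, e2⟩ := exists_den w _ h2
  obtain ⟨n3, d3, hd3, e3⟩ := exists_den w _ h3
  obtain ⟨n4, d4, hd4, e4⟩ := exists_den w _ h4
  obtain ⟨n6, d6, hd6, e6⟩ := exists_den w _ h6
  set d : 𝓞 M := d1 * d2 * d3 * d4 * d6 with hd
  have hdn : d ∉ w.asIdeal := by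
    have hp := w.isPrime
    intro hmem
    rcases hp.mem_or_mem hmem with h | h
    · rcases hp.mem_or_mem h with h | h
      · rcases hp.mem_or_mem h with h | h
        · rcases hp.mem_or_mem h with h | h
          · exact hd1 h
          · exact hd2 h
        · exact hd3 h
      · exact hd4 h
    · exact hd6 h
  have hd0 : algebraMap (𝓞 M) M d ≠ 0 := by
    intro h0
    apply hdn
    have : d = 0 := by
      apply IsFractionRing.injective (𝓞 M) M
      rw [h0, map_zero]
    rw [this]
    exact w.asIdeal.zero_mem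
  set V' : WeierstrassCurve (𝓞 M) :=
    { a₁ := n1 * (d2 * d3 * d4 * d6)
      a₂ := d * (n2 * (d1 * d3 * d4 * d6))
      a₃ := d ^ 2 * (n3 * (d1 * d2 * d4 * d6))
      a₄ := d ^ 3 * (n4 * (d1 * d2 * d3 * d6))
      a₆ := d ^ 5 * (n6 * (d1 * d2 * d3 * d4)) } with hV'
  set D : M := algebraMap (𝓞 M) M d with hD
  have hDe : D = algebraMap (𝓞 M) M d1 * algebraMap (𝓞 M) M d2 * algebraMap (𝓞 M) M d3 *
      algebraMap (𝓞 M) M d4 * algebraMap (𝓞 M) M d6 := by
    rw [hD, hd]; simp only [map_mul]
  have ha1 : algebraMap (𝓞 M) M V'.a₁ = D * V.a₁ := by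
    simp only [hV', map_mul, ← e1, hDe]; ring
  have ha2 : algebraMap (𝓞 M) M V'.a₂ = D ^ 2 * V.a₂ := by
    simp only [hV', map_mul, ← e2, ← hD]; rw [hDe]; ring
  have ha3 : algebraMap (𝓞 M) M V'.a₃ = D ^ 3 * V.a₃ := by
    simp only [hV', map_mul, map_pow, ← e3, ← hD]; rw [hDe]; ring
  have ha4 : algebraMap (𝓞 M) M V'.a₄ = D ^ 4 * V.a₄ := by
    simp only [hV', map_mul, map_pow, ← e4, ← hD]; rw [hDe]; ring
  have ha6 : algebraMap (𝓞 M) M V'.a₆ = D ^ 6 * V.a₆ := by
    simp only [hV', map_mul, map_pow, ← e6, ← hD]; rw [hDe]; ring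
  let C1 : WeierstrassCurve.VariableChange M := ⟨Units.mk0 D hd0, 0, 0, 0⟩
  have hC1 : C1 • V'.map (algebraMap (𝓞 M) M) = V := by
    have hu : ((C1.u⁻¹ : Mˣ) : M) = D⁻¹ := by
      simp [C1]
    rw [WeierstrassCurve.variableChange_def]
    ext
    · simp only [WeierstrassCurve.map_a₁, hu, ha1, C1]; field_simp; ring
    · simp only [WeierstrassCurve.map_a₁, WeierstrassCurve.map_a₂, hu, ha1, ha2, C1]
      field_simp; ring
    · simp only [WeierstrassCurve.map_a₁, WeierstrassCurve.map_a₃, hu, ha1, ha3, C1]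
      field_simp; ring
    · simp only [WeierstrassCurve.map_a₁, WeierstrassCurve.map_a₂, WeierstrassCurve.map_a₃,
        WeierstrassCurve.map_a₄, hu, ha1, ha2, ha3, ha4, C1]
      field_simp; ring
    · simp only [WeierstrassCurve.map_a₁, WeierstrassCurve.map_a₂, WeierstrassCurve.map_a₃,
        WeierstrassCurve.map_a₄, WeierstrassCurve.map_a₆, hu, ha1, ha2, ha3, ha4, ha6, C1]
      field_simp; ring
  have hvD : w.valuation M D = 1 :=
    (HeightOneSpectrum.valuation_eq_one_iff_notMem (K := M) w).2 hdn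
  refine ⟨V', ⟨C * C1, by rw [mul_smul, hC1, h]⟩, ?_⟩
  rcases hΔ with hΔ | ⟨g1, g2, g3, g4, g6⟩
  · left
    rw [← HeightOneSpectrum.valuation_eq_one_iff_notMem (K := M)]
    have hdel : algebraMap (𝓞 M) M V'.Δ = D ^ 12 * V.Δ := by
      rw [← WeierstrassCurve.map_Δ]
      have := WeierstrassCurve.variableChange_Δ (V'.map (algebraMap (𝓞 M) M)) C1
      rw [hC1] at this
      have hu : ((C1.u⁻¹ : Mˣ) : M) = D⁻¹ := by
        simp [C1]
      rw [this, hu]
      field_simp
    rw [hdel, map_mul, map_pow, hvD, hΔ]; simp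
  · right
    refine ⟨?_, ?_, ?_, ?_, ?_⟩
    · rw [← HeightOneSpectrum.valuation_eq_one_iff_notMem (K := M), ha1, map_mul, hvD, g1]; simp
    · refine (HeightOneSpectrum.valuation_lt_one_iff_mem (K := M) w _).1 ?_
      show w.valuation M (algebraMap (𝓞 M) M V'.a₂) < 1
      rw [ha2, map_mul, map_pow, hvD]
      simpa using g2
    · refine (HeightOneSpectrum.valuation_lt_one_iff_mem (K := M) w _).1 ?_
      show w.valuation M (algebraMap (𝓞 M) M V'.a₃) < 1
      rw [ha3, map_mul, map_pow, hvD]
      simpa using g3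
    · refine (HeightOneSpectrum.valuation_lt_one_iff_mem (K := M) w _).1 ?_
      show w.valuation M (algebraMap (𝓞 M) M V'.a₄) < 1
      rw [ha4, map_mul, map_pow, hvD]
      simpa using g4
    · refine (HeightOneSpectrum.valuation_lt_one_iff_mem (K := M) w _).1 ?_
      show w.valuation M (algebraMap (𝓞 M) M V'.a₆) < 1
      rw [ha6, map_mul, map_pow, hvD]
      simpa using g6

/-- The Legendre curve `y² = x (x - 1) (x - λ)`. -/
def leg {F : Type} [Field F] (l : F) : WeierstrassCurve F := ⟨0, -(1 + l), 0, l, 0⟩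

/-- The Deuring curve `y² + α x y + y = x³`. -/
def deu {F : Type} [Field F] (a : F) : WeierstrassCurve F := ⟨a, 0, 1, 0, 0⟩

lemma leg_Δ {F : Type} [Field F] (l : F) : (leg l).Δ = 16 * l ^ 2 * (l - 1) ^ 2 := by
  simp only [leg, WeierstrassCurve.Δ, WeierstrassCurve.b₂, WeierstrassCurve.b₄,
    WeierstrassCurve.b₆, WeierstrassCurve.b₈]
  ring

lemma leg_c₄ {F : Type} [Field F] (l : F) : (leg l).c₄ = 16 * (l ^ 2 - l + 1) := by
  simp only [leg, WeierstrassCurve.c₄, WeierstrassCurve.b₂, WeierstrassCurve.b₄]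
  ring

lemma deu_Δ {F : Type} [Field F] (a : F) : (deu a).Δ = a ^ 3 - 27 := by
  simp only [deu, WeierstrassCurve.Δ, WeierstrassCurve.b₂, WeierstrassCurve.b₄,
    WeierstrassCurve.b₆, WeierstrassCurve.b₈]
  ring

lemma deu_c₄ {F : Type} [Field F] (a : F) : (deu a).c₄ = a * (a ^ 3 - 24) := by
  simp only [deu, WeierstrassCurve.c₄, WeierstrassCurve.b₂, WeierstrassCurve.b₄]
  ring

/-- If `D • leg l` satisfies the local condition then `leg l` is good or split. -/
lemma goodOrSplit_of_smul (E V : WeierstrassCurve M) (C D : WeierstrassCurve.VariableChange M)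
    (h : C • V = E) (hV : LC w (D • V)) : GoodOrSplit E w :=
  goodOrSplit_of_LC w E (D • V) (C * D⁻¹) (by rw [mul_smul, inv_smul_smul, h]) hV

lemma leg_local (l i m : M) (hi : i ^ 2 = -1) (hm : m ^ 2 = l) (hl0 : l ≠ 0)
    (h2 : w.valuation M 2 = 1) :
    ∃ D : WeierstrassCurve.VariableChange M, LC w (D • leg l) := by
  have hvi : w.valuation M i = 1 := by
    have h := congrArg (w.valuation M) hi
    rw [map_pow, Valuation.map_neg, map_one] at h
    exact (pow_eq_one_iff.1 h).resolve_right (by norm_num)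
  have hle : ∀ x : M, w.valuation M x < 1 → w.valuation M x ≤ 1 := fun x hx => hx.le
  rcases lt_trichotomy (w.valuation M l) 1 with hl | hl | hl
  · refine ⟨⟨1, 0, i, 0⟩, ?_⟩
    have e1 : ((⟨1, 0, i, 0⟩ : WeierstrassCurve.VariableChange M) • leg l) =
        ⟨2 * i, -l, 0, l, 0⟩ := by
      rw [WeierstrassCurve.variableChange_def]
      ext
      · simp [leg]
      · simp [leg]; linear_combination -hi
      · simp [leg]
      · simp [leg]
      · simp [leg]
    rw [e1]
    have h2i : w.valuation M (2 * i) = 1 := by rw [map_mul, h2, hvi, one_mul]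
    exact ⟨⟨h2i.le, by simpa using hl.le, by simp, hl.le, by simp⟩,
      Or.inr ⟨h2i, by simpa using hl, by simp, hl, by simp⟩⟩
  · by_cases hl1 : w.valuation M (1 - l) = 1
    · refine ⟨1, ?_⟩
      rw [one_smul]
      refine ⟨⟨by simp [leg], ?_, by simp [leg], by simpa [leg] using hl.le, by simp [leg]⟩,
        Or.inl ?_⟩
      · show w.valuation M (-(1 + l)) ≤ 1
        rw [Valuation.map_neg]
        exact (Valuation.map_add _ _ _).trans (by simp [hl])
      · rw [leg_Δ]
        have h1 : (16 : M) * l ^ 2 * (l - 1) ^ 2 = 2 ^ 4 * l ^ 2 * (1 - l) ^ 2 := by ring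
        rw [h1]
        simp only [map_mul, map_pow, h2, hl, hl1, one_pow, one_mul]
    · have hl2 : w.valuation M (1 - l) < 1 := by
        refine lt_of_le_of_ne ?_ hl1
        exact (Valuation.map_sub _ _ _).trans (by simp [hl])
      refine ⟨⟨1, 1, 1, 0⟩, ?_⟩
      have e1 : ((⟨1, 1, 1, 0⟩ : WeierstrassCurve.VariableChange M) • leg l) =
          ⟨2, 1 - l, 0, 1 - l, 0⟩ := by
        rw [WeierstrassCurve.variableChange_def]
        ext
        · simp [leg]
        · simp [leg]; ring
        · simp [leg]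
        · simp [leg]; ring
        · simp [leg]
      rw [e1]
      exact ⟨⟨h2.le, hl2.le, by simp, hl2.le, by simp⟩,
        Or.inr ⟨h2, hl2, by simp, hl2, by simp⟩⟩
  · have hm0 : m ≠ 0 := by
      rintro rfl
      exact hl0 (by rw [← hm]; ring)
    refine ⟨⟨Units.mk0 m hm0, 0, i * m, 0⟩, ?_⟩
    have e1 : ((⟨Units.mk0 m hm0, 0, i * m, 0⟩ : WeierstrassCurve.VariableChange M) • leg l) =
        ⟨2 * i, -l⁻¹, 0, l⁻¹, 0⟩ := by
      rw [WeierstrassCurve.variableChange_def]
      have hlm : l = m ^ 2 := hm.symm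
      ext
      · simp [leg]; field_simp
      · simp [leg]; rw [hlm]; field_simp; linear_combination (-m ^ 2) * hi
      · simp [leg]
      · simp [leg]; rw [hlm]; field_simp
      · simp [leg]
    rw [e1]
    have h2i : w.valuation M (2 * i) = 1 := by rw [map_mul, h2, hvi, one_mul]
    have hinv : w.valuation M l⁻¹ < 1 := by
      rw [map_inv₀]
      exact inv_lt_one_of_one_lt₀ hl
    exact ⟨⟨h2i.le, by rw [Valuation.map_neg]; exact hinv.le, by simp, hinv.le, by simp⟩,
      Or.inr ⟨h2i, by rw [Valuation.map_neg]; exact hinv, by simp, hinv, by simp⟩⟩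

lemma deu_local (a z : M) (hz : z ^ 2 + z + 1 = 0)
    (h3 : w.valuation M 3 = 1) :
    ∃ D : WeierstrassCurve.VariableChange M, LC w (D • deu a) := by
  have h30 : (3 : M) ≠ 0 := by norm_num
  have h27 : w.valuation M 27 = 1 := by
    have : (27 : M) = 3 ^ 3 := by norm_num
    rw [this, map_pow, h3, one_pow]
  rcases le_or_gt (w.valuation M a) 1 with ha | ha
  · by_cases hd : w.valuation M (a ^ 3 - 27) = 1
    · refine ⟨1, ?_⟩
      rw [one_smul]
      refine ⟨⟨by simpa [deu] using ha, by simp [deu], by simp [deu], by simp [deu],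
        by simp [deu]⟩, Or.inl ?_⟩
      rw [deu_Δ]; exact hd
    · have hd2 : w.valuation M (a ^ 3 - 27) < 1 := by
        refine lt_of_le_of_ne ?_ hd
        refine (Valuation.map_sub _ _ _).trans ?_
        rw [map_pow, h27]
        simp only [sup_le_iff, le_refl, and_true]
        exact pow_le_one₀ zero_le ha
      have hva : w.valuation M a = 1 := by
        have h1 : w.valuation M (a ^ 3) = 1 := by
          have h2 : a ^ 3 = (a ^ 3 - 27) + 27 := by ring
          have h3' : w.valuation M (a ^ 3 - 27) < w.valuation M 27 := by rw [h27]; exact hd2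
          rw [h2, Valuation.map_add_eq_of_lt_right _ h3', h27]
        rw [map_pow] at h1
        exact (pow_eq_one_iff.1 h1).resolve_right (by norm_num)
      have hth : w.valuation M (2 * z + 1) = 1 := by
        have h1 : (2 * z + 1) ^ 2 = -3 := by linear_combination 4 * hz
        have h2 := congrArg (w.valuation M) h1
        rw [map_pow, Valuation.map_neg, h3] at h2
        exact (pow_eq_one_iff.1 h2).resolve_right (by norm_num)
      have hz1 : w.valuation M z = 1 := by
        have h1 : z ^ 3 = 1 := by linear_combination (z - 1) * hz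
        have h2 := congrArg (w.valuation M) h1
        rw [map_pow, map_one] at h2
        exact (pow_eq_one_iff.1 h2).resolve_right (by norm_num)
      refine ⟨⟨1, -a ^ 2 / 9, a * (z - 1) / 3, 1⟩, ?_⟩
      have e1 : ((⟨1, -a ^ 2 / 9, a * (z - 1) / 3, 1⟩ : WeierstrassCurve.VariableChange M) •
          deu a) = ⟨a * (2 * z + 1) / 3, 0, -(a ^ 3 - 27) / 9,
            a * (z - 1) / 3 * (a ^ 3 - 27) / 9 + a * (a ^ 3 - 27) / 27,
            -((a ^ 3 - 27) * (a ^ 3 - 54)) / 729⟩ := by
        rw [WeierstrassCurve.variableChange_def]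
        ext
        · simp [deu]; ring
        · simp [deu]; linear_combination (-a ^ 2 / 9) * hz
        · simp [deu]; ring
        · simp [deu]; ring
        · simp [deu]; ring
      rw [e1]
      have h9 : w.valuation M 9 = 1 := by
        have : (9 : M) = 3 ^ 2 := by norm_num
        rw [this, map_pow, h3, one_pow]
      have h729 : w.valuation M 729 = 1 := by
        have : (729 : M) = 3 ^ 6 := by norm_num
        rw [this, map_pow, h3, one_pow]
      have hzm : w.valuation M (z - 1) ≤ 1 := by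
        refine (Valuation.map_sub _ _ _).trans ?_
        rw [hz1, map_one, max_self]
      have g1 : w.valuation M (a * (2 * z + 1) / 3) = 1 := by
        rw [map_div₀, map_mul, hva, hth, h3]; simp
      have g3 : w.valuation M (-(a ^ 3 - 27) / 9) < 1 := by
        rw [map_div₀, Valuation.map_neg, h9, div_one]; exact hd2
      have g4 : w.valuation M (a * (z - 1) / 3 * (a ^ 3 - 27) / 9 + a * (a ^ 3 - 27) / 27) < 1 := by
        refine Valuation.map_add_lt _ ?_ ?_
        · rw [map_div₀, map_mul, map_div₀, map_mul, hva, h3, h9]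
          simp only [one_mul, div_one]
          exact (mul_le_of_le_one_left' hzm).trans_lt hd2
        · rw [map_div₀, map_mul, hva, h27, one_mul, div_one]; exact hd2
      have g6 : w.valuation M (-((a ^ 3 - 27) * (a ^ 3 - 54)) / 729) < 1 := by
        rw [map_div₀, Valuation.map_neg, map_mul, h729, div_one]
        have h54 : w.valuation M (a ^ 3 - 54) ≤ 1 := by
          have : a ^ 3 - 54 = (a ^ 3 - 27) - 27 := by ring
          rw [this]
          refine (Valuation.map_sub _ _ _).trans ?_
          rw [h27]; exact max_le hd2.le le_rfl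
        exact (mul_le_of_le_one_right' h54).trans_lt hd2
      exact ⟨⟨g1.le, by simp, g3.le, g4.le, g6.le⟩, Or.inr ⟨g1, by simp, g3, g4, g6⟩⟩
  · have ha0 : a ≠ 0 := by
      rintro rfl
      simp at ha
    refine ⟨⟨Units.mk0 a ha0, 0, 0, 0⟩, ?_⟩
    have e1 : ((⟨Units.mk0 a ha0, 0, 0, 0⟩ : WeierstrassCurve.VariableChange M) • deu a) =
        ⟨1, 0, a⁻¹ ^ 3, 0, 0⟩ := by
      rw [WeierstrassCurve.variableChange_def]
      ext
      · simp [deu, ha0]
      · simp [deu]
      · simp [deu]
      · simp [deu]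
      · simp [deu]
    rw [e1]
    have hinv : w.valuation M (a⁻¹ ^ 3) < 1 := by
      rw [map_pow, map_inv₀]
      exact pow_lt_one₀ zero_le (inv_lt_one_of_one_lt₀ ha) (by norm_num)
    exact ⟨⟨by simp, by simp, hinv.le, by simp, by simp⟩,
      Or.inr ⟨by simp, by simp, hinv, by simp, by simp⟩⟩

end Local

section Closed

variable {F : Type} [Field F] [IsAlgClosed F] [CharZero F]

open Polynomial in
lemma exists_leg (E : WeierstrassCurve F) [E.IsElliptic] :
    ∃ l : F, l ≠ 0 ∧ ∃ C : WeierstrassCurve.VariableChange F, C • leg l = E := by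
  have hdeg : (C (256 : F) * (X ^ 2 - X + 1) ^ 3 - C E.j * X ^ 2 * (X - 1) ^ 2 :
      Polynomial F).natDegree = 6 := by
    compute_degree!
  obtain ⟨l, hl⟩ := IsAlgClosed.exists_root
    (C (256 : F) * (X ^ 2 - X + 1) ^ 3 - C E.j * X ^ 2 * (X - 1) ^ 2 : Polynomial F) (by
      intro h
      have := Polynomial.natDegree_eq_of_degree_eq_some h
      rw [hdeg] at this
      norm_num at this)
  have hl' : 256 * (l ^ 2 - l + 1) ^ 3 - E.j * l ^ 2 * (l - 1) ^ 2 = 0 := by
    have := hl
    rw [Polynomial.IsRoot.def] at this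
    simpa using this
  have hl0 : l ≠ 0 := by
    rintro rfl
    norm_num at hl'
  have hl1 : l - 1 ≠ 0 := by
    intro h
    have : l = 1 := by linear_combination h
    rw [this] at hl'
    norm_num at hl'
  have hΔ : (leg l).Δ ≠ 0 := by
    rw [leg_Δ]
    have : (16 : F) ≠ 0 := by norm_num
    positivity
  have : (leg l).IsElliptic := ⟨isUnit_iff_ne_zero.2 hΔ⟩
  refine ⟨l, hl0, WeierstrassCurve.exists_variableChange_of_j_eq (leg l) E ?_⟩
  have h16 : (16 : F) ≠ 0 := by norm_num
  rw [WeierstrassCurve.j, Units.val_inv_eq_inv_val, WeierstrassCurve.coe_Δ', leg_Δ, leg_c₄]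
  field_simp
  linear_combination hl'

open Polynomial in
lemma exists_deu (E : WeierstrassCurve F) [E.IsElliptic] :
    ∃ a : F, ∃ C : WeierstrassCurve.VariableChange F, C • deu a = E := by
  have hdeg : (X ^ 3 * (X ^ 3 - C (24 : F)) ^ 3 - C E.j * (X ^ 3 - C 27) :
      Polynomial F).natDegree = 12 := by
    compute_degree!
  obtain ⟨a, ha⟩ := IsAlgClosed.exists_root
    (X ^ 3 * (X ^ 3 - C (24 : F)) ^ 3 - C E.j * (X ^ 3 - C 27) : Polynomial F) (by
      intro h
      have := Polynomial.natDegree_eq_of_degree_eq_some h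
      rw [hdeg] at this
      norm_num at this)
  have ha' : a ^ 3 * (a ^ 3 - 24) ^ 3 - E.j * (a ^ 3 - 27) = 0 := by
    have := ha
    rw [Polynomial.IsRoot.def] at this
    simpa using this
  have ha1 : a ^ 3 - 27 ≠ 0 := by
    intro h
    have h2 : a ^ 3 = 27 := by linear_combination h
    rw [h2] at ha'
    norm_num at ha'
  have hΔ : (deu a).Δ ≠ 0 := by
    rw [deu_Δ]; exact ha1
  have : (deu a).IsElliptic := ⟨isUnit_iff_ne_zero.2 hΔ⟩
  refine ⟨a, WeierstrassCurve.exists_variableChange_of_j_eq (deu a) E ?_⟩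
  rw [WeierstrassCurve.j, Units.val_inv_eq_inv_val, WeierstrassCurve.coe_Δ', deu_Δ, deu_c₄]
  field_simp
  linear_combination ha'

end Closed

/-- Descent of a change of variables to a subfield containing its coefficients. -/
lemma smul_descend {M F : Type} [Field M] [Field F] (f : M →+* F) (V E : WeierstrassCurve M)
    (C : WeierstrassCurve.VariableChange F) (u r s t : M) (hu : f u = C.u) (hr : f r = C.r)
    (hs : f s = C.s) (ht : f t = C.t) (h : C • V.map f = E.map f) :
    ∃ D : WeierstrassCurve.VariableChange M, D • V = E := by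
  have hu0 : u ≠ 0 := by
    rintro rfl
    rw [map_zero] at hu
    exact C.u.ne_zero hu.symm
  refine ⟨⟨Units.mk0 u hu0, r, s, t⟩, ?_⟩
  apply WeierstrassCurve.map_injective f.injective
  have hC : (⟨Units.mk0 u hu0, r, s, t⟩ : WeierstrassCurve.VariableChange M).map f = C := by
    ext
    · simpa [WeierstrassCurve.VariableChange.map] using hu
    · simpa [WeierstrassCurve.VariableChange.map] using hr
    · simpa [WeierstrassCurve.VariableChange.map] using hs
    · simpa [WeierstrassCurve.VariableChange.map] using ht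
  show WeierstrassCurve.map _ f = WeierstrassCurve.map _ f
  rw [← WeierstrassCurve.map_variableChange, hC, h]

/-- T1 (semistable reduction): over a finite extension the reduction is everywhere good or split
multiplicative. -/
theorem exists_semistable_field (K : Type) [Field K] [NumberField K] (E : WeierstrassCurve K)
    [E.IsElliptic] :
    ∃ (M : Type) (_ : Field M) (_ : NumberField M) (_ : Algebra K M),
      ∀ w : HeightOneSpectrum (𝓞 M), GoodOrSplit (E.map (algebraMap K M)) w := by
  let Ω := AlgebraicClosure K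
  let E' : WeierstrassCurve Ω := E.map (algebraMap K Ω)
  obtain ⟨l, hl0, CL, hCL⟩ := exists_leg E'
  obtain ⟨a, CD, hCD⟩ := exists_deu E'
  obtain ⟨i, hi⟩ := IsAlgClosed.exists_pow_nat_eq (-1 : Ω) (n := 2) (by norm_num)
  obtain ⟨m, hm⟩ := IsAlgClosed.exists_pow_nat_eq l (n := 2) (by norm_num)
  obtain ⟨th, hth⟩ := IsAlgClosed.exists_pow_nat_eq (-3 : Ω) (n := 2) (by norm_num)
  let S : Set Ω := {l, a, i, m, th, (CL.u : Ω), CL.r, CL.s, CL.t, (CD.u : Ω), CD.r, CD.s, CD.t}
  let M := IntermediateField.adjoin K S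
  have hfin : FiniteDimensional K M :=
    IntermediateField.finiteDimensional_adjoin (S := S) (fun x _ => Algebra.IsIntegral.isIntegral x)
  have hS : ∀ x ∈ S, x ∈ M := fun x hx => IntermediateField.subset_adjoin K S hx
  have hM : NumberField M :=
    { to_charZero := charZero_of_injective_algebraMap (algebraMap K M).injective
      to_finiteDimensional := by
        have := hfin
        exact FiniteDimensional.trans ℚ K M }
  refine ⟨M, inferInstance, hM, inferInstance, fun w => ?_⟩
  set EM : WeierstrassCurve M := E.map (algebraMap K M) with hEM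
  have hEMΩ : EM.map (algebraMap M Ω) = E' := by
    rw [hEM, WeierstrassCurve.map_map, ← IsScalarTower.algebraMap_eq]
  have hmem : ∀ x : Ω, x ∈ S → ∃ y : M, algebraMap M Ω y = x := fun x hx => ⟨⟨x, hS x hx⟩, rfl⟩
  obtain ⟨l', hl'⟩ := hmem l (by simp [S])
  obtain ⟨a', ha'⟩ := hmem a (by simp [S])
  obtain ⟨i', hi'⟩ := hmem i (by simp [S])
  obtain ⟨m', hm'⟩ := hmem m (by simp [S])
  obtain ⟨th', hth'⟩ := hmem th (by simp [S])
  obtain ⟨uL, huL⟩ := hmem CL.u (by simp [S])
  obtain ⟨rL, hrL⟩ := hmem CL.r (by simp [S])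
  obtain ⟨sL, hsL⟩ := hmem CL.s (by simp [S])
  obtain ⟨tL, htL⟩ := hmem CL.t (by simp [S])
  obtain ⟨uD, huD⟩ := hmem CD.u (by simp [S])
  obtain ⟨rD, hrD⟩ := hmem CD.r (by simp [S])
  obtain ⟨sD, hsD⟩ := hmem CD.s (by simp [S])
  obtain ⟨tD, htD⟩ := hmem CD.t (by simp [S])
  have hinj : Function.Injective (algebraMap M Ω) := (algebraMap M Ω).injective
  obtain ⟨C1, hC1⟩ := smul_descend (algebraMap M Ω) (leg l') EM CL uL rL sL tL huL hrL hsL htL (by
    have : (leg l').map (algebraMap M Ω) = leg l := by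
      rw [← hl']
      ext <;> simp only [leg, WeierstrassCurve.map_a₁, WeierstrassCurve.map_a₂,
        WeierstrassCurve.map_a₃, WeierstrassCurve.map_a₄, WeierstrassCurve.map_a₆, map_neg, map_add,
        map_one, map_zero]
    rw [this, hEMΩ, hCL])
  obtain ⟨C2, hC2⟩ := smul_descend (algebraMap M Ω) (deu a') EM CD uD rD sD tD huD hrD hsD htD (by
    have : (deu a').map (algebraMap M Ω) = deu a := by
      rw [← ha']
      ext <;> simp only [deu, WeierstrassCurve.map_a₁, WeierstrassCurve.map_a₂,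
        WeierstrassCurve.map_a₃, WeierstrassCurve.map_a₄, WeierstrassCurve.map_a₆, map_one,
        map_zero]
    rw [this, hEMΩ, hCD])
  by_cases h3 : (3 : 𝓞 M) ∈ w.asIdeal
  · have h2 : (2 : 𝓞 M) ∉ w.asIdeal := by
      intro h2
      apply w.isPrime.ne_top
      rw [Ideal.eq_top_iff_one]
      have := w.asIdeal.sub_mem h3 h2
      have e : (3 : 𝓞 M) - 2 = 1 := by norm_num
      rwa [e] at this
    have hv2 : w.valuation M 2 = 1 := by
      have := (HeightOneSpectrum.valuation_eq_one_iff_notMem (K := M) w).2 h2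
      rwa [map_ofNat] at this
    obtain ⟨D, hD⟩ := leg_local w l' i' m'
      (hinj (by rw [map_pow, hi', hi]; simp)) (hinj (by rw [map_pow, hm', hm, hl']))
      (by
        rintro rfl
        rw [map_zero] at hl'
        exact hl0 hl'.symm) hv2
    exact goodOrSplit_of_smul w EM (leg l') C1 D hC1 hD
  · have hv3 : w.valuation M 3 = 1 := by
      have := (HeightOneSpectrum.valuation_eq_one_iff_notMem (K := M) w).2 h3
      rwa [map_ofNat] at this
    have hth2 : th' ^ 2 = -3 := hinj (by rw [map_pow, hth', hth, map_neg, map_ofNat])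
    obtain ⟨D, hD⟩ := deu_local w a' ((th' - 1) / 2)
      (by linear_combination hth2 / 4) hv3
    exact goodOrSplit_of_smul w EM (deu a') C2 D hC2 hD

end Pool.Agent.H37.OP
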