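import Mathlib
import Pool.Agent.H37.OP.Semistable
import Pool.Agent.H37.OP.Galois23

/-! OP5 of project ONEPLACE: semistable reduction over a Galois extension with `{2,3}`-group. -/

set_option autoImplicit false

namespace Pool.Agent.H37.OP

open NumberField IsDedekindDomain Polynomial Pool.Agent.H46.OP

section Closed

variable {F : Type} [Field F] [IsAlgClosed F] [CharZero F]

lemma exists_leg' (E : WeierstrassCurve F) [E.IsElliptic] :
    ∃ l : F, l ≠ 0 ∧ 256 * (l ^ 2 - l + 1) ^ 3 - E.j * (l ^ 2 - l) ^ 2 = 0 ∧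
      ∃ C : WeierstrassCurve.VariableChange F, C • leg l = E := by
  have hdeg : (C (256 : F) * (X ^ 2 - X + 1) ^ 3 - C E.j * X ^ 2 * (X - 1) ^ 2 :
      Polynomial F).natDegree = 6 := by
    compute_degree!
  obtain ⟨l, hl⟩ := IsAlgClosed.exists_root
    (C (256 : F) * (X ^ 2 - X + 1) ^ 3 - C E.j * X ^ 2 * (X - 1) ^ 2 : Polynomial F) (by
      intro h
      have := Polynomial.natDegree_eq_of_degree_eq_some h
      rw [hdeg] at this
      norm_num at this)
  have hl' : 256 * (l ^ 2 - l + 1) ^ 3 - E.j * l ^ 2 * (l - 1) ^ 2 = 0 := by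
    have := hl
    rw [Polynomial.IsRoot.def] at this
    simpa using this
  have hl0 : l ≠ 0 := by
    rintro rfl
    norm_num at hl'
  have hl1 : l - 1 ≠ 0 := by
    intro h
    have : l = 1 := by linear_combination h
    rw [this] at hl'
    norm_num at hl'
  have hΔ : (leg l).Δ ≠ 0 := by
    rw [leg_Δ]
    have : (16 : F) ≠ 0 := by norm_num
    positivity
  have : (leg l).IsElliptic := ⟨isUnit_iff_ne_zero.2 hΔ⟩
  refine ⟨l, hl0, by linear_combination hl',
    WeierstrassCurve.exists_variableChange_of_j_eq (leg l) E ?_⟩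
  have h16 : (16 : F) ≠ 0 := by norm_num
  rw [WeierstrassCurve.j, Units.val_inv_eq_inv_val, WeierstrassCurve.coe_Δ', leg_Δ, leg_c₄]
  field_simp
  linear_combination hl'

lemma exists_deu' (E : WeierstrassCurve F) [E.IsElliptic] :
    ∃ a : F, a ^ 3 * (a ^ 3 - 24) ^ 3 - E.j * (a ^ 3 - 27) = 0 ∧
      ∃ C : WeierstrassCurve.VariableChange F, C • deu a = E := by
  have hdeg : (X ^ 3 * (X ^ 3 - C (24 : F)) ^ 3 - C E.j * (X ^ 3 - C 27) :
      Polynomial F).natDegree = 12 := by
    compute_degree!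
  obtain ⟨a, ha⟩ := IsAlgClosed.exists_root
    (X ^ 3 * (X ^ 3 - C (24 : F)) ^ 3 - C E.j * (X ^ 3 - C 27) : Polynomial F) (by
      intro h
      have := Polynomial.natDegree_eq_of_degree_eq_some h
      rw [hdeg] at this
      norm_num at this)
  have ha' : a ^ 3 * (a ^ 3 - 24) ^ 3 - E.j * (a ^ 3 - 27) = 0 := by
    have := ha
    rw [Polynomial.IsRoot.def] at this
    simpa using this
  have ha1 : a ^ 3 - 27 ≠ 0 := by
    intro h
    have h2 : a ^ 3 = 27 := by linear_combination h
    rw [h2] at ha'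
    norm_num at ha'
  have hΔ : (deu a).Δ ≠ 0 := by
    rw [deu_Δ]; exact ha1
  have : (deu a).IsElliptic := ⟨isUnit_iff_ne_zero.2 hΔ⟩
  refine ⟨a, ha', WeierstrassCurve.exists_variableChange_of_j_eq (deu a) E ?_⟩
  rw [WeierstrassCurve.j, Units.val_inv_eq_inv_val, WeierstrassCurve.coe_Δ', deu_Δ, deu_c₄]
  field_simp
  linear_combination ha'

end Closed

section RootClosed

variable {K N : Type} [Field K] [Field N] [Algebra K N] [CharZero N]

/-- `M` contains the roots in `N` of the polynomials of degree at most `4` over `M`. -/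
def RootClosed (M : IntermediateField K N) : Prop :=
  ∀ f : Polynomial M, f ≠ 0 → f.natDegree ≤ 4 → ∀ x : N, aeval x f = 0 → x ∈ M

variable {M : IntermediateField K N} (hM : RootClosed M)

include hM

lemma pow_mem' (k : ℕ) (hk : 0 < k) (hk4 : k ≤ 4) (x : N) (hx : x ^ k ∈ M) : x ∈ M := by
  refine hM (X ^ k - C ⟨x ^ k, hx⟩) (Polynomial.X_pow_sub_C_ne_zero hk _) ?_ x ?_
  · rw [Polynomial.natDegree_X_pow_sub_C]; exact hk4
  · simp only [map_sub, map_pow, aeval_X, aeval_C]
    exact sub_self _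

lemma quad_mem (x z : N) (hz : z ∈ M) (h : x ^ 2 - x = z) : x ∈ M := by
  have hd : (X ^ 2 - X - C (⟨z, hz⟩ : M)).natDegree = 2 := by compute_degree!
  refine hM (X ^ 2 - X - C ⟨z, hz⟩) ?_ (by rw [hd]; norm_num) x ?_
  · intro h0
    rw [h0] at hd
    simp at hd
  · simp only [map_sub, map_pow, aeval_X, aeval_C]
    rw [h]
    exact sub_self _

lemma cubic_mem (z j : N) (hj : j ∈ M) (h : 256 * (z + 1) ^ 3 - j * z ^ 2 = 0) : z ∈ M := by
  have hc : CharZero M := charZero_of_injective_algebraMap (algebraMap M N).injective |> fun _ => by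
    exact (algebraMap M N).charZero_iff (algebraMap M N).injective |>.2 inferInstance
  have hd : (C (256 : M) * (X + 1) ^ 3 - C (⟨j, hj⟩ : M) * X ^ 2).natDegree = 3 := by
    compute_degree!
  refine hM (C (256 : M) * (X + 1) ^ 3 - C (⟨j, hj⟩ : M) * X ^ 2) ?_ (by rw [hd]; norm_num) z ?_
  · intro h0
    rw [h0] at hd
    simp at hd
  · simp only [map_sub, map_pow, aeval_X, aeval_C, map_mul, map_add, map_one, map_ofNat]
    exact h

lemma quartic_mem (b j : N) (hj : j ∈ M) (h : b * (b - 24) ^ 3 - j * (b - 27) = 0) : b ∈ M := by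
  have hd : (X * (X - C (24 : M)) ^ 3 - C (⟨j, hj⟩ : M) * (X - C 27)).natDegree = 4 := by
    compute_degree!
  refine hM (X * (X - C (24 : M)) ^ 3 - C (⟨j, hj⟩ : M) * (X - C 27)) ?_ (by rw [hd]) b ?_
  · intro h0
    rw [h0] at hd
    simp at hd
  · simp only [map_sub, map_pow, aeval_X, aeval_C, map_mul, map_ofNat]
    exact h

lemma vc_mem (V E : WeierstrassCurve M) (hE : E.Δ ≠ 0) (D : WeierstrassCurve.VariableChange N)
    (h : D • V.map (algebraMap M N) = E.map (algebraMap M N)) :
    (D.u : N) ∈ M ∧ D.r ∈ M ∧ D.s ∈ M ∧ D.t ∈ M := by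
  have hu0 : (D.u : N) ≠ 0 := D.u.ne_zero
  have hi : ((D.u⁻¹ : Nˣ) : N) = (D.u : N)⁻¹ := by simp
  have h4 : (D.u : N) ^ 4 * algebraMap M N E.c₄ = algebraMap M N V.c₄ := by
    have := WeierstrassCurve.variableChange_c₄ (V.map (algebraMap M N)) D
    rw [h, WeierstrassCurve.map_c₄, WeierstrassCurve.map_c₄, hi] at this
    rw [this]; field_simp
  have h6 : (D.u : N) ^ 6 * algebraMap M N E.c₆ = algebraMap M N V.c₆ := by
    have := WeierstrassCurve.variableChange_c₆ (V.map (algebraMap M N)) D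
    rw [h, WeierstrassCurve.map_c₆, WeierstrassCurve.map_c₆, hi] at this
    rw [this]; field_simp
  have hrel := E.c_relation
  have hinj := (algebraMap M N).injective
  have hmem : ∀ x : M, algebraMap M N x ∈ M := fun x => x.2
  have hu : (D.u : N) ∈ M := by
    by_cases hc6 : E.c₆ = 0
    · have hc4 : E.c₄ ≠ 0 := by
        intro hc4
        rw [hc4, hc6] at hrel
        apply hE
        have h1728 : (1728 : M) ≠ 0 := by
          intro h0
          have := congrArg (algebraMap M N) h0
          rw [map_ofNat, map_zero] at this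
          norm_num at this
        apply mul_left_cancel₀ h1728
        rw [hrel]; ring
      apply pow_mem' hM 4 (by norm_num) (by norm_num)
      have hc4' : algebraMap M N E.c₄ ≠ 0 := by
        rw [Ne, map_eq_zero]; exact hc4
      have : (D.u : N) ^ 4 = algebraMap M N V.c₄ / algebraMap M N E.c₄ := by
        rw [← h4]; field_simp
      rw [this]
      exact M.div_mem (hmem _) (hmem _)
    · have hc6' : algebraMap M N E.c₆ ≠ 0 := by
        rw [Ne, map_eq_zero]; exact hc6
      have hu6 : (D.u : N) ^ 6 = algebraMap M N V.c₆ / algebraMap M N E.c₆ := by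
        rw [← h6]; field_simp
      by_cases hc4 : E.c₄ = 0
      · have h3 : (D.u : N) ^ 3 ∈ M := by
          apply pow_mem' hM 2 (by norm_num) (by norm_num)
          rw [← pow_mul, hu6]
          exact M.div_mem (hmem _) (hmem _)
        exact pow_mem' hM 3 (by norm_num) (by norm_num) _ h3
      · have hc4' : algebraMap M N E.c₄ ≠ 0 := by
          rw [Ne, map_eq_zero]; exact hc4
        have hu4 : (D.u : N) ^ 4 = algebraMap M N V.c₄ / algebraMap M N E.c₄ := by
          rw [← h4]; field_simp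
        apply pow_mem' hM 2 (by norm_num) (by norm_num)
        have : (D.u : N) ^ 2 = (D.u : N) ^ 6 / (D.u : N) ^ 4 := by
          field_simp
        rw [this, hu6, hu4]
        exact M.div_mem (M.div_mem (hmem _) (hmem _)) (M.div_mem (hmem _) (hmem _))
  have e1 := congrArg WeierstrassCurve.a₁ h
  have e2 := congrArg WeierstrassCurve.a₂ h
  have e3 := congrArg WeierstrassCurve.a₃ h
  rw [WeierstrassCurve.variableChange_a₁, hi, WeierstrassCurve.map_a₁, WeierstrassCurve.map_a₁] at e1
  rw [WeierstrassCurve.variableChange_a₂, hi, WeierstrassCurve.map_a₁, WeierstrassCurve.map_a₂,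
    WeierstrassCurve.map_a₂] at e2
  rw [WeierstrassCurve.variableChange_a₃, hi, WeierstrassCurve.map_a₁, WeierstrassCurve.map_a₃,
    WeierstrassCurve.map_a₃] at e3
  have h2M : (2 : N) ∈ M := by
    have := M.natCast_mem 2
    exact_mod_cast this
  have h3M : (3 : N) ∈ M := by
    have := M.natCast_mem 3
    exact_mod_cast this
  have hs : D.s ∈ M := by
    have : D.s = ((D.u : N) * algebraMap M N E.a₁ - algebraMap M N V.a₁) / 2 := by
      rw [← e1]; field_simp; ring
    rw [this]
    exact M.div_mem (M.sub_mem (M.mul_mem hu (hmem _)) (hmem _)) h2M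
  have hr : D.r ∈ M := by
    have : D.r = ((D.u : N) ^ 2 * algebraMap M N E.a₂ - algebraMap M N V.a₂ +
        D.s * algebraMap M N V.a₁ + D.s ^ 2) / 3 := by
      rw [← e2]; field_simp; ring
    rw [this]
    exact M.div_mem (M.add_mem (M.add_mem (M.sub_mem (M.mul_mem (_root_.pow_mem hu 2) (hmem _)) (hmem _))
      (M.mul_mem hs (hmem _))) (_root_.pow_mem hs 2)) h3M
  have ht : D.t ∈ M := by
    have : D.t = ((D.u : N) ^ 3 * algebraMap M N E.a₃ - algebraMap M N V.a₃ -
        D.r * algebraMap M N V.a₁) / 2 := by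
      rw [← e3]; field_simp; ring
    rw [this]
    exact M.div_mem (M.sub_mem (M.sub_mem (M.mul_mem (_root_.pow_mem hu 3) (hmem _)) (hmem _))
      (M.mul_mem hr (hmem _))) h2M
  exact ⟨hu, hr, hs, ht⟩

end RootClosed

/-- OP5: semistable reduction over a Galois extension whose group is a `{2,3}`-group. -/
theorem exists_semistable_galois (K : Type) [Field K] [NumberField K] (E : WeierstrassCurve K)
    [E.IsElliptic] :
    ∃ (M : Type) (_ : Field M) (_ : NumberField M) (_ : Algebra K M), IsGalois K M ∧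
      (∀ p : ℕ, p.Prime → p ∣ Nat.card Gal(M/K) → p = 2 ∨ p = 3) ∧
      ∀ w : HeightOneSpectrum (𝓞 M), GoodOrSplit (E.map (algebraMap K M)) w := by
  let Ω := AlgebraicClosure K
  let E' : WeierstrassCurve Ω := E.map (algebraMap K Ω)
  obtain ⟨l, hl0, hlj, CL, hCL⟩ := exists_leg' E'
  obtain ⟨a, haj, CD, hCD⟩ := exists_deu' E'
  obtain ⟨i, hi⟩ := IsAlgClosed.exists_pow_nat_eq (-1 : Ω) (n := 2) (by norm_num)
  obtain ⟨m, hm⟩ := IsAlgClosed.exists_pow_nat_eq l (n := 2) (by norm_num)
  obtain ⟨th, hth⟩ := IsAlgClosed.exists_pow_nat_eq (-3 : Ω) (n := 2) (by norm_num)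
  let S : Set Ω := {l, a, i, m, th, (CL.u : Ω), CL.r, CL.s, CL.t, (CD.u : Ω), CD.r, CD.s, CD.t}
  let N0 := IntermediateField.adjoin K S
  have hfin : FiniteDimensional K N0 :=
    IntermediateField.finiteDimensional_adjoin (S := S) (fun x _ => Algebra.IsIntegral.isIntegral x)
  let N := IntermediateField.normalClosure K N0 Ω
  have hNfin : FiniteDimensional K N := inferInstance
  have hNnorm : Normal K N := inferInstance
  have hNgal : IsGalois K N := { }
  have hS : ∀ x ∈ S, x ∈ N := fun x hx =>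
    IntermediateField.le_normalClosure N0 (IntermediateField.subset_adjoin K S hx)
  have hcN : CharZero N := charZero_of_injective_algebraMap (algebraMap K N).injective
  let M := F23 K N
  have hMc : RootClosed M := fun f hf hdeg x hx => closed4 f hf hdeg x hx
  have hMfin : FiniteDimensional K M := inferInstance
  have hMnum : NumberField M :=
    { to_charZero := charZero_of_injective_algebraMap (algebraMap K M).injective
      to_finiteDimensional := by
        exact FiniteDimensional.trans ℚ K M }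
  refine ⟨M, inferInstance, hMnum, inferInstance, inferInstance, fun p hp h => card_F23 p hp h,
    fun w => ?_⟩
  set EN : WeierstrassCurve N := E.map (algebraMap K N) with hEN
  set EM : WeierstrassCurve M := E.map (algebraMap K M) with hEM
  have hENΩ : EN.map (algebraMap N Ω) = E' := by
    rw [hEN, WeierstrassCurve.map_map, ← IsScalarTower.algebraMap_eq]
  have hEMN : EM.map (algebraMap M N) = EN := by
    rw [hEM, WeierstrassCurve.map_map, ← IsScalarTower.algebraMap_eq]
  have hEMΔ : EM.Δ ≠ 0 := by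
    rw [hEM, WeierstrassCurve.map_Δ, Ne, map_eq_zero]
    exact E.isUnit_Δ.ne_zero
  have hmem : ∀ x : Ω, x ∈ S → ∃ y : N, algebraMap N Ω y = x := fun x hx => ⟨⟨x, hS x hx⟩, rfl⟩
  obtain ⟨l', hl'⟩ := hmem l (by simp [S])
  obtain ⟨a', ha'⟩ := hmem a (by simp [S])
  obtain ⟨i', hi'⟩ := hmem i (by simp [S])
  obtain ⟨m', hm'⟩ := hmem m (by simp [S])
  obtain ⟨th', hth'⟩ := hmem th (by simp [S])
  obtain ⟨uL, huL⟩ := hmem CL.u (by simp [S])
  obtain ⟨rL, hrL⟩ := hmem CL.r (by simp [S])
  obtain ⟨sL, hsL⟩ := hmem CL.s (by simp [S])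
  obtain ⟨tL, htL⟩ := hmem CL.t (by simp [S])
  obtain ⟨uD, huD⟩ := hmem CD.u (by simp [S])
  obtain ⟨rD, hrD⟩ := hmem CD.r (by simp [S])
  obtain ⟨sD, hsD⟩ := hmem CD.s (by simp [S])
  obtain ⟨tD, htD⟩ := hmem CD.t (by simp [S])
  have hinj : Function.Injective (algebraMap N Ω) := (algebraMap N Ω).injective
  obtain ⟨D1, hD1⟩ := smul_descend (algebraMap N Ω) (leg l') EN CL uL rL sL tL huL hrL hsL htL (by
    have : (leg l').map (algebraMap N Ω) = leg l := by
      rw [← hl']
      ext <;> simp only [leg, WeierstrassCurve.map_a₁, WeierstrassCurve.map_a₂,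
        WeierstrassCurve.map_a₃, WeierstrassCurve.map_a₄, WeierstrassCurve.map_a₆, map_neg, map_add,
        map_one, map_zero]
    rw [this, hENΩ, hCL])
  obtain ⟨D2, hD2⟩ := smul_descend (algebraMap N Ω) (deu a') EN CD uD rD sD tD huD hrD hsD htD (by
    have : (deu a').map (algebraMap N Ω) = deu a := by
      rw [← ha']
      ext <;> simp only [deu, WeierstrassCurve.map_a₁, WeierstrassCurve.map_a₂,
        WeierstrassCurve.map_a₃, WeierstrassCurve.map_a₄, WeierstrassCurve.map_a₆, map_one,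
        map_zero]
    rw [this, hENΩ, hCD])
  -- the parameters lie in `M`
  set j : N := algebraMap K N E.j with hj
  have hjM : j ∈ M := M.algebraMap_mem E.j
  have hjΩ : algebraMap N Ω j = E'.j := by
    have : E'.j = algebraMap K Ω E.j := WeierstrassCurve.map_j E (algebraMap K Ω)
    rw [this, hj, ← IsScalarTower.algebraMap_apply]
  have hlM : l' ∈ M := by
    refine quad_mem hMc l' (l' ^ 2 - l') ?_ rfl
    refine cubic_mem hMc _ j hjM ?_
    apply hinj
    rw [map_zero, ← hlj]
    simp only [map_sub, map_mul, map_pow, map_add, map_one, map_ofNat, hl', hjΩ]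
  have haM : a' ∈ M := by
    refine pow_mem' hMc 3 (by norm_num) (by norm_num) _ ?_
    refine quartic_mem hMc _ j hjM ?_
    apply hinj
    rw [map_zero, ← haj]
    simp only [map_sub, map_mul, map_pow, map_ofNat, ha', hjΩ]
  have hiN : i' ^ 2 = -1 := hinj (by rw [map_pow, hi', hi]; simp)
  have hmN : m' ^ 2 = l' := hinj (by rw [map_pow, hm', hm, hl'])
  have hthN : th' ^ 2 = -3 := hinj (by rw [map_pow, hth', hth, map_neg, map_ofNat])
  have hiM : i' ∈ M := by
    refine pow_mem' hMc 2 (by norm_num) (by norm_num) _ ?_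
    rw [hiN]
    exact M.neg_mem M.one_mem
  have hmM : m' ∈ M := by
    refine pow_mem' hMc 2 (by norm_num) (by norm_num) _ ?_
    rw [hmN]
    exact hlM
  have h3M : (3 : N) ∈ M := by
    have := M.natCast_mem 3
    exact_mod_cast this
  have hthM : th' ∈ M := by
    refine pow_mem' hMc 2 (by norm_num) (by norm_num) _ ?_
    rw [hthN]
    exact M.neg_mem h3M
  have hlegM : (leg (⟨l', hlM⟩ : M)).map (algebraMap M N) = leg l' := by
    ext <;> simp only [leg, WeierstrassCurve.map_a₁, WeierstrassCurve.map_a₂,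
        WeierstrassCurve.map_a₃, WeierstrassCurve.map_a₄, WeierstrassCurve.map_a₆, map_neg, map_add,
        map_one, map_zero] <;> rfl
  have hdeuM : (deu (⟨a', haM⟩ : M)).map (algebraMap M N) = deu a' := by
    ext <;> simp only [deu, WeierstrassCurve.map_a₁, WeierstrassCurve.map_a₂,
        WeierstrassCurve.map_a₃, WeierstrassCurve.map_a₄, WeierstrassCurve.map_a₆, map_one,
        map_zero] <;> rfl
  have hD1' : D1 • (leg (⟨l', hlM⟩ : M)).map (algebraMap M N) = EM.map (algebraMap M N) := by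
    rw [hlegM, hEMN, hD1]
  have hD2' : D2 • (deu (⟨a', haM⟩ : M)).map (algebraMap M N) = EM.map (algebraMap M N) := by
    rw [hdeuM, hEMN, hD2]
  obtain ⟨g1, g2, g3, g4⟩ := vc_mem hMc _ EM hEMΔ D1 hD1'
  obtain ⟨k1, k2, k3, k4⟩ := vc_mem hMc _ EM hEMΔ D2 hD2'
  obtain ⟨C1, hC1⟩ := smul_descend (algebraMap M N) (leg (⟨l', hlM⟩ : M)) EM D1 ⟨_, g1⟩ ⟨_, g2⟩
    ⟨_, g3⟩ ⟨_, g4⟩ rfl rfl rfl rfl hD1'
  obtain ⟨C2, hC2⟩ := smul_descend (algebraMap M N) (deu (⟨a', haM⟩ : M)) EM D2 ⟨_, k1⟩ ⟨_, k2⟩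
    ⟨_, k3⟩ ⟨_, k4⟩ rfl rfl rfl rfl hD2'
  by_cases h3 : (3 : 𝓞 M) ∈ w.asIdeal
  · have h2 : (2 : 𝓞 M) ∉ w.asIdeal := by
      intro h2
      apply w.isPrime.ne_top
      rw [Ideal.eq_top_iff_one]
      have := w.asIdeal.sub_mem h3 h2
      have e : (3 : 𝓞 M) - 2 = 1 := by norm_num
      rwa [e] at this
    have hv2 : w.valuation M 2 = 1 := by
      have := (HeightOneSpectrum.valuation_eq_one_iff_notMem (K := M) w).2 h2
      rwa [map_ofNat] at this
    obtain ⟨D, hD⟩ := leg_local w (⟨l', hlM⟩ : M) ⟨i', hiM⟩ ⟨m', hmM⟩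
      (Subtype.ext hiN) (Subtype.ext hmN)
      (by
        intro h0
        have h1 : l' = 0 := congrArg Subtype.val h0
        rw [h1, map_zero] at hl'
        exact hl0 hl'.symm) hv2
    exact goodOrSplit_of_smul w EM _ C1 D hC1 hD
  · have hv3 : w.valuation M 3 = 1 := by
      have := (HeightOneSpectrum.valuation_eq_one_iff_notMem (K := M) w).2 h3
      rwa [map_ofNat] at this
    have hth2 : (⟨th', hthM⟩ : M) ^ 2 = -3 := (algebraMap M N).injective (by
      rw [map_pow, map_neg, map_ofNat]; exact hthN)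
    obtain ⟨D, hD⟩ := deu_local w (⟨a', haM⟩ : M) ((⟨th', hthM⟩ - 1) / 2)
      (by linear_combination hth2 / 4) hv3
    exact goodOrSplit_of_smul w EM _ C2 D hC2 hD

end Pool.Agent.H37.OP
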